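import Pool.Agent.MP_993212_an.H18.WSpec
import Pool.Agent.MP_993212_an.H16.CNT
import Pool.Agent.MP_993212_an.H16.PF

/-! Many periodic points, the Perron eigenvalue, and the number of orbits. -/

namespace Pool.Agent.MP_993212_an.H18

open Matrix Finset H16 Filter

theorem abund_free_dvd {Y : Type} {d : ℕ} [NeZero d] (ρ : ZMod d → Y → Y) (P : Finset Y) :
    Free ρ P → d ∣ P.card := by
  classical
  induction P using Finset.strongInduction with
  | H P ih =>
  intro hF
  rcases P.eq_empty_or_nonempty with rfl | ⟨x, hx⟩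
  · simp
  have hsub : (univ.image fun j => ρ j x) ⊆ P := fun y hy => by
    obtain ⟨j, -, rfl⟩ := mem_image.1 hy
    exact hF.mem j x hx
  have hc : (univ.image fun j => ρ j x).card = d := by
    rw [card_image_of_injective, card_univ, ZMod.card]
    intro i j hij
    have h1 := congrArg (ρ (-j)) hij
    simp only at h1
    rw [hF.add _ _ x hx, hF.add _ _ x hx, neg_add_cancel, hF.zero x hx] at h1
    exact (neg_add_eq_zero.1 (hF.free _ x hx h1)).symm
  have h2 := ih (P \ univ.image fun j => ρ j x)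
    (sdiff_ssubset hsub ⟨_, mem_image_of_mem _ (mem_univ 0)⟩)
    ⟨fun y hy => hF.zero y (mem_sdiff.1 hy).1, fun i j y hy => hF.add i j y (mem_sdiff.1 hy).1,
      fun j y hy => ?_, fun j y hy => hF.free j y (mem_sdiff.1 hy).1⟩
  · rw [← card_sdiff_add_card_eq_card hsub, hc]
    exact h2.add dvd_rfl
  · obtain ⟨h3, h4⟩ := mem_sdiff.1 hy
    refine mem_sdiff.2 ⟨hF.mem j y h3, fun h => h4 ?_⟩
    obtain ⟨i, -, hi⟩ := mem_image.1 h
    refine mem_image.2 ⟨-j + i, mem_univ _, ?_⟩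
    rw [← hF.add _ _ x hx, hi, hF.add _ _ y h3, neg_add_cancel, hF.zero y h3]

theorem abund_ev_lin {r b : ℝ} (hr : 1 < r) (hb : 0 < b) (a : ℝ) :
    ∀ᶠ m : ℕ in atTop, a * m ≤ b * r ^ m := by
  have h := (tendsto_pow_const_div_const_pow_of_one_lt 1 hr).const_mul a
  rw [mul_zero] at h
  filter_upwards [h.eventually (gt_mem_nhds hb)] with m hm
  rw [pow_one, ← mul_div_assoc, div_lt_iff₀ (by positivity)] at hm
  exact hm.le

theorem abund_pfS_upper {V : Type} [Fintype V] [DecidableEq V] {A : Matrix V V ℕ} {l : ℝ} {x : V → ℝ}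
    (hl : 0 ≤ l) (hx : ∀ v, 0 < x v) (h : cr A *ᵥ x = l • x) :
    ∃ C : ℝ, 0 ≤ C ∧ ∀ m, (pfS (A ^ m) : ℝ) ≤ C * l ^ m := by
  obtain ⟨C, hC, h1⟩ := pow_upper hl hx h
  refine ⟨Fintype.card V * (Fintype.card V * C), by positivity, fun m => ?_⟩
  rw [pfS]
  push_cast
  refine (sum_le_sum fun u _ => sum_le_sum fun v _ => h1 m u v).trans ?_
  simp [mul_assoc]

theorem abundStmt : AbundStmt where
  many V _ _ A lam x ρ K hA hV hl hx h hρ := by
    have hA' := pf_prim hA
    have hl0 : 0 < lam := by linarith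
    have hρ0 : 0 < ρ := (inv_pos.2 hl0).trans hρ
    obtain ⟨c, N, hc, hg⟩ := hA'.growth hl0 hx h
    obtain ⟨C, hC, hu⟩ := abund_pfS_upper hl0.le hx h
    have hs : 1 < √lam := Real.lt_sqrt_of_sq_lt (by simpa using hl)
    have hμ : 1 < lam * ρ := by rwa [inv_lt_iff_one_lt_mul₀' hl0] at hρ
    filter_upwards [abund_ev_lin hs (half_pos hc) C, abund_ev_lin hμ (half_pos hc) K,
      eventually_ge_atTop (N + 1)] with m h1 h2 hm
    have a1 : ((trace (A ^ m) : ℕ) : ℝ) - ((m / 2 : ℕ) : ℝ) * pfS (A ^ (m / 2)) ≤ np m A := by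
      exact_mod_cast pf_np hA' (by omega : m ≠ 0)
    obtain ⟨v⟩ := hV
    have a2 : c * lam ^ m ≤ ((trace (A ^ m) : ℕ) : ℝ) := by
      refine (hg m (by omega) v v).trans ?_
      exact_mod_cast single_le_sum (f := fun u => (A ^ m) u u) (fun _ _ => Nat.zero_le _)
        (mem_univ v)
    have a3 : lam ^ (m / 2) ≤ √lam ^ m := by
      conv_lhs => rw [← Real.sq_sqrt hl0.le, ← pow_mul]
      exact pow_le_pow_right₀ hs.le (by omega)
    have a4 : √lam ^ m * √lam ^ m = lam ^ m := by rw [← mul_pow, Real.mul_self_sqrt hl0.le]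
    have a5 : ((m / 2 : ℕ) : ℝ) ≤ m := by exact_mod_cast Nat.div_le_self _ _
    have a6 : ((m / 2 : ℕ) : ℝ) * pfS (A ^ (m / 2)) ≤ c / 2 * lam ^ m :=
      calc ((m / 2 : ℕ) : ℝ) * pfS (A ^ (m / 2)) ≤ m * (C * √lam ^ m) :=
            mul_le_mul a5 ((hu _).trans (mul_le_mul_of_nonneg_left a3 hC)) (by positivity)
              (by positivity)
        _ = C * m * √lam ^ m := by ring
        _ ≤ c / 2 * √lam ^ m * √lam ^ m := mul_le_mul_of_nonneg_right h1 (by positivity)
        _ = _ := by rw [mul_assoc, a4]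
    refine h2.trans ?_
    rw [mul_pow, ← mul_assoc]
    exact mul_le_mul_of_nonneg_right (by linarith) (by positivity)
  eig V _ _ A hA h2 := by
    cases isEmpty_or_nonempty V with
    | inl hV => simp at h2
    | inr hV =>
    have hA' := pf_prim hA
    obtain ⟨l, x, hl, hx, h⟩ := hA'.perron
    refine ⟨l, x, hl.lt_of_ne ?_, hx, h⟩
    rintro rfl
    obtain ⟨C, -, hu⟩ := abund_pfS_upper zero_le_one hx h
    obtain ⟨-, e, -, he⟩ := hA'
    obtain ⟨t, ht⟩ := pow_unbounded_of_one_lt C (one_lt_two (α := ℝ))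
    have a1 := pfS_double h2 he 1 t
    have a2 := hu (1 + t * (e + 1))
    rw [pow_one] at a1
    have a3 : 2 ^ t ≤ pfS (A ^ (1 + t * (e + 1))) :=
      (Nat.le_mul_of_pos_right _ (lt_of_lt_of_le two_pos h2)).trans a1
    have a4 : (2 : ℝ) ^ t ≤ pfS (A ^ (1 + t * (e + 1))) := by exact_mod_cast a3
    rw [one_pow, mul_one] at a2
    linarith
  dvd V _ _ A k hk := by
    have : NeZero k := ⟨by omega⟩
    obtain ⟨o, ho⟩ := abund_free_dvd _ _ (free_prim k A (1 : Matrix V V ℕ))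
    have h := cnt_card_prim A (1 : Matrix V V ℕ) k
    rw [Matrix.mul_one, ho] at h
    exact ⟨o, by rw [← h]; push_cast; ring⟩

end Pool.Agent.MP_993212_an.H18
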