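import Pool.Agent.MP_993212_an.H18.WSpec

/-! The reservoir and the prescribed loops of the hub. -/

namespace Pool.Agent.MP_993212_an.H18

open Matrix Polynomial Finset H16 H92 H15

theorem N1.midAdd {p q : ℤ[X]} (hp : N1 p) (hq : N1 q) : N1 (p + q) := fun k => by
  rw [coeff_add]; exact add_nonneg (hp k) (hq k)

theorem mid_ind (hE : ExtStmt) {I G : Type} [Fintype I] [DecidableEq I] [AddCommGroup G]
    [Module ℤ[X] G] {N : Matrix I I ℤ[X]} {ξ : I → G} {z : I} {ρ η : ℝ} {L : ℕ} (ψ : I → ℤ[X])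
    (hS : St ρ η z L N) (h0 : Eq0 N ξ N ξ) (hρ : 0 ≤ ρ) (hη : 0 < η) (T : Finset I) :
    z ∉ T → (∀ w ∈ T, Src N w ∧ Snk N w ∧ N1 (ψ w) ∧ nz ρ (ψ w) ≤ 1 - 2 * η) →
    N1 (N z z - ∑ w ∈ T, ψ w) →
    ∃ N', Eq0 N ξ N' (fun i => if i ∈ T then ξ z else ξ i) ∧ St ρ η z L N' ∧ Keep T N N' ∧
      (∀ w ∈ T, X ^ L ∣ N' w w - ψ w) ∧ (∀ u, u ≠ z → u ∉ T → X ^ L ∣ N' u u - N u u) ∧
      N1 (N' z z - (N z z - ∑ w ∈ T, ψ w)) := by
  induction T using Finset.induction_on with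
  | empty =>
    intro _ _ _
    exact ⟨N, by simpa using h0, hS, fun j _ => ⟨id, id⟩, by simp, by simp, fun k => by simp⟩
  | insert w T hw ih =>
    intro hz hT h1
    have hzT : z ∉ T := fun h => hz (mem_insert_of_mem h)
    have hwz : w ≠ z := fun h => hz (h ▸ mem_insert_self _ _)
    obtain ⟨s1, s2, s3, s4⟩ := hT w (mem_insert_self _ _)
    rw [sum_insert hw] at h1 ⊢
    obtain ⟨M, e1, a1, a2, a3, a4, a5⟩ := ih hzT (fun v hv => hT v (mem_insert_of_mem hv))
      (by simpa [sub_add_eq_sub_sub_swap] using h1.midAdd s3)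
    have h2 : N1 (M z z - ψ w) := by
      have := a5.midAdd h1
      rwa [show M z z - (N z z - ∑ w ∈ T, ψ w) + (N z z - (ψ w + ∑ w ∈ T, ψ w)) = M z z - ψ w by
        ring] at this
    obtain ⟨M', e2, b1, b2, b3, -, b5, b6⟩ := hE I G M _ z z w ρ η L (ψ w) a1 e1.rel' hρ hη hwz hwz
      ((a2 w hw).1 s1) ((a2 w hw).2 s2) s3 h2 fun _ => s4
    refine ⟨M', ?_, b1, fun j hj => ?_, fun v hv => ?_, fun u hu hu' => ?_, ?_⟩
    · have e3 : (Function.update (fun i => if i ∈ T then ξ z else ξ i) w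
          (if z ∈ T then ξ z else ξ z)) = fun i => if i ∈ insert w T then ξ z else ξ i := by
        funext i
        by_cases hi : i = w
        · subst hi; simp
        · simp [hi]
      exact e3 ▸ Eqv.trans e1 e2
    · simp only [coe_insert, Set.mem_insert_iff, not_or] at hj
      exact ⟨fun h => (b2 j hj.1).1 ((a2 j hj.2).1 h), fun h => (b2 j hj.1).2 ((a2 j hj.2).2 h)⟩
    · rcases mem_insert.1 hv with rfl | hv
      · exact b3
      · have := (b6 v (fun h => hzT (h ▸ hv)) fun h => hw (h ▸ hv)).add (a3 v hv)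
        rwa [sub_add_sub_cancel] at this
    · simp only [mem_insert, not_or] at hu'
      have := (b6 u hu hu'.1).add (a4 u hu hu'.2)
      rwa [sub_add_sub_cancel] at this
    · have := b5.midAdd a5
      rwa [show M' z z - (M z z - ψ w) + (M z z - (N z z - ∑ w ∈ T, ψ w)) =
        M' z z - (N z z - (ψ w + ∑ w ∈ T, ψ w)) by ring] at this

theorem mid_coeff_cX (c h k : ℕ) : ((c : ℤ[X]) * X ^ h).coeff k = if k = h then (c : ℤ) else 0 := by
  rw [← C_eq_natCast, coeff_C_mul_X_pow]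

theorem mid_coeff_Wd (h k : ℕ) : (Wd h).coeff k = if h ≤ k ∧ k < 2 * h then 1 else 0 := by
  rw [Wd, finsetSum_coeff]
  simp only [coeff_X_pow]
  split_ifs with hk
  · rw [sum_eq_single (k - h), if_pos (by omega)]
    · intro b _ hb; rw [if_neg (by omega)]
    · intro hb; exact absurd (mem_range.2 (by omega)) hb
  · exact sum_eq_zero fun i hi => if_neg (by have := mem_range.1 hi; omega)

theorem mid_nz_cX {ρ : ℝ} (hρ : 0 ≤ ρ) (c h : ℕ) : nz ρ ((c : ℤ[X]) * X ^ h) = c * ρ ^ h := by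
  rw [nz_eq (T := {h}), sum_singleton, mid_coeff_cX, if_pos rfl, abs_of_nonneg (by positivity)]
  · simp
  · intro k hk
    rw [mem_support_iff, mid_coeff_cX] at hk
    exact mem_singleton.2 (by by_contra h1; exact hk (if_neg h1))

theorem mid_of (hE : ExtStmt) : MidStmt := by
  intro I G _ _ _ _ N ξ z r ρ σ η L h c₀ c T ψ K hS hrel hρ hσ hσ1 hη hh hL hz hr hrz s1 s2 hT
    hc hc' hψ hf
  have hsum : ∀ k, (0 : ℝ) ≤ ∑ w ∈ T, ((ψ w).coeff k : ℝ) := fun k =>
    sum_nonneg fun w hw => by exact_mod_cast (hT w hw).2.2.1 k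
  have hσk : ∀ k, 0 < σ ^ k ∧ σ ^ k ≤ 1 := fun k => ⟨pow_pos hσ k, pow_le_one₀ hσ.le hσ1⟩
  have hK : 0 ≤ K := by
    have := hψ h
    rw [if_pos ⟨le_rfl, by omega⟩] at this
    exact (mul_nonneg (hsum h) (hσk h).1.le).trans this
  have hc0 : (0 : ℝ) ≤ c := by positivity
  have h1 : N1 (N z z - (c₀ : ℤ[X]) * X ^ h) := fun k => by
    rw [coeff_sub, mid_coeff_cX]
    split_ifs with hk
    · have a1 := hf k hk.ge (by omega)
      have a2 := (hσk k).1
      have : (0 : ℝ) ≤ (N z z).coeff k - c₀ := by nlinarith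
      exact_mod_cast this
    · simpa using hS.hs.1 z z k
  obtain ⟨M, e1, a1, a2, a3, a4, a5, a6⟩ := hE I G N ξ z z r ρ η L ((c₀ : ℤ[X]) * X ^ h) hS hrel
    hρ hη hrz hrz s1 s2 (fun k => by rw [mid_coeff_cX]; split_ifs <;> simp) h1
    fun _ => (mid_nz_cX hρ _ _).trans_le hc
  have b1 : ∀ k, ((N z z).coeff k : ℝ) - c₀ ≤ (M z z).coeff k := fun k => by
    have := a5 k
    rw [coeff_sub, coeff_sub, mid_coeff_cX] at this
    have h2 : (N z z).coeff k - c₀ ≤ (M z z).coeff k := by split_ifs at this <;> omega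
    exact_mod_cast h2
  have b2 : ∀ k, h ≤ k → k < L → K + 1 ≤ ((M z z).coeff k : ℝ) * σ ^ k := by
    intro k
    induction k using Nat.strong_induction_on with
    | _ k ih =>
    intro hk hkL
    by_cases hk2 : k < 2 * h
    · have := b1 k
      exact (hf k hk hk2).trans (mul_le_mul_of_nonneg_right (by linarith) (hσk k).1.le)
    · obtain ⟨j, rfl⟩ : ∃ j, k = j + h := ⟨k - h, by omega⟩
      have d1 := ih j (by omega) (by omega) (by omega)
      have d2 := X_pow_dvd_iff.1 a4 _ hkL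
      rw [show (1 - (c₀ : ℤ[X]) * X ^ h) * (1 - M z z) - (1 - N z z) =
        N z z - (c₀ : ℤ[X]) * X ^ h + (c₀ : ℤ[X]) * (M z z * X ^ h) - M z z by ring,
        coeff_sub, coeff_add, ← C_eq_natCast, coeff_C_mul, coeff_mul_X_pow, C_eq_natCast] at d2
      have d3 := h1 (j + h)
      have d4 : (c₀ : ℝ) * (M z z).coeff j ≤ (M z z).coeff (j + h) := by
        have : (c₀ : ℤ) * (M z z).coeff j ≤ (M z z).coeff (j + h) := by
          linarith
        exact_mod_cast this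
      calc K + 1 ≤ (c₀ * σ ^ h) * ((M z z).coeff j * σ ^ j) := by nlinarith
        _ = (c₀ * (M z z).coeff j) * σ ^ (j + h) := by ring
        _ ≤ _ := mul_le_mul_of_nonneg_right d4 (hσk _).1.le
  have b3 : N1 (M z z - ∑ w ∈ T, ψ w - ((c : ℤ[X]) * X ^ h + Wd h)) := fun k => by
    rw [coeff_sub, coeff_sub, coeff_add, mid_coeff_cX, mid_coeff_Wd, finsetSum_coeff]
    have d1 := hψ k
    obtain ⟨d2, d3⟩ := hσk k
    by_cases hk : h ≤ k ∧ k < 2 * h
    · rw [if_pos ⟨hk.1, by omega⟩] at d1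
      have d4 := hf k hk.1 hk.2
      have d5 := b1 k
      have d6 : (0 : ℝ) ≤ (M z z).coeff k - ∑ w ∈ T, ((ψ w).coeff k : ℝ) - (c + 1) := by
        refine le_of_mul_le_mul_right ?_ d2
        nlinarith
      have d7 : (0 : ℤ) ≤ (M z z).coeff k - ∑ w ∈ T, (ψ w).coeff k - (c + 1) := by
        exact_mod_cast d6
      rw [if_pos hk]
      split_ifs <;> omega
    · have d6 : (0 : ℝ) ≤ (M z z).coeff k - ∑ w ∈ T, ((ψ w).coeff k : ℝ) := by
        refine le_of_mul_le_mul_right ?_ d2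
        split_ifs at d1 with hkL
        · have := b2 k hkL.1 hkL.2
          nlinarith
        · have : (0 : ℝ) ≤ (M z z).coeff k := by exact_mod_cast a1.hs.1 z z k
          nlinarith
      have d7 : (0 : ℤ) ≤ (M z z).coeff k - ∑ w ∈ T, (ψ w).coeff k := by exact_mod_cast d6
      rw [if_neg hk, if_neg (by omega)]
      omega
  have b4 : N1 ((c : ℤ[X]) * X ^ h + Wd h) := fun k => by
    rw [coeff_add, mid_coeff_cX, mid_coeff_Wd]; split_ifs <;> omega
  have hne : ∀ w ∈ T, w ∉ ({r} : Set I) := fun w hw h => hr (Set.mem_singleton_iff.1 h ▸ hw)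
  obtain ⟨M', e2, f1, f2, f3, f4, f5⟩ := mid_ind hE ψ a1 (Eqv.trans (Eqv.symm e1) e1) hρ hη T hz
    (fun w hw => ⟨(a2 w (hne w hw)).1 (hT w hw).1, (a2 w (hne w hw)).2 (hT w hw).2.1,
      (hT w hw).2.2⟩) (by simpa using b3.midAdd b4)
  refine ⟨M', ?_, f1, fun j hj => ?_, ?_, f3, fun u hu hu' hu'' => ?_, ?_⟩
  · have e3 : (fun i => if i ∈ T then Function.update ξ r (ξ z) z
        else Function.update ξ r (ξ z) i) = fun i => if i = r ∨ i ∈ T then ξ z else ξ i := by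
      funext i
      by_cases hi : i = r
      · subst hi; simp [hr]
      · simp [hi, hrz.symm]
    exact e3 ▸ Eqv.trans e1 e2
  · simp only [Set.mem_insert_iff, not_or] at hj
    exact ⟨fun h => (f2 j hj.2).1 ((a2 j hj.1).1 h), fun h => (f2 j hj.2).2 ((a2 j hj.1).2 h)⟩
  · have := (f4 r hrz hr).add a3
    rwa [sub_add_sub_cancel] at this
  · have := (f4 u hu hu'').add (a6 u hu hu')
    rwa [sub_add_sub_cancel] at this
  · have := f5.midAdd b3
    rwa [show M' z z - (M z z - ∑ w ∈ T, ψ w) +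
      (M z z - ∑ w ∈ T, ψ w - ((c : ℤ[X]) * X ^ h + Wd h)) =
        M' z z - ((c : ℤ[X]) * X ^ h + Wd h) by ring] at this

end Pool.Agent.MP_993212_an.H18
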